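import Pool.Agent.Run7.h191.CS.CRT

/-!
# Piece LOC of the project CS (helper241): the critical points with negative values near `κ₀`
-/

set_option autoImplicit false

namespace Run7.h191.CS

open Polynomial Run7.h241.CS Topology Filter

theorem eval_FP (A : ℝ[X]) (κ x : ℝ) :
    (FP A κ).eval x = A.eval x * ((x ^ 3 - 7 * x) ^ 2 - κ) := by
  simp [FP]

theorem eval_dFP (A : ℝ[X]) (κ x : ℝ) : (derivative (FP A κ)).eval x =
    (derivative A).eval x * ((x ^ 3 - 7 * x) ^ 2 - κ) +
      A.eval x * (2 * (x ^ 3 - 7 * x) * (3 * x ^ 2 - 7)) := by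
  simp only [FP, derivative_mul, derivative_sub, derivative_pow, derivative_X, derivative_C,
    eval_add, eval_mul, eval_sub, eval_pow, eval_X, eval_C, eval_one, eval_zero]
  push_cast
  ring

theorem natDegree_FP (A : ℝ[X]) (hA : A ≠ 0) (κ : ℝ) : (FP A κ).natDegree = A.natDegree + 6 := by
  have h1 : ((X ^ 3 - C 7 * X) ^ 2 - C κ : ℝ[X]).natDegree = 6 := by compute_degree!
  have h2 : ((X ^ 3 - C 7 * X) ^ 2 - C κ : ℝ[X]) ≠ 0 := by
    intro h
    rw [h, natDegree_zero] at h1
    omega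
  rw [FP, natDegree_mul hA h2, h1]

/-- no change of sign as long as no root is crossed -/
theorem sign0 (R : Finset ℝ) (c t : ℝ) (h : ∀ s ∈ R, |t| < |c - s|) :
    0 < (PR R).eval c * (PR R).eval (c + t) := by
  rw [eval_PR, eval_PR, ← Finset.prod_mul_distrib]
  refine Finset.prod_pos fun s hs => ?_
  have h1 := h s hs
  have h2 : (c - s) * (c + t - s) = |c - s| ^ 2 + t * (c - s) := by
    rw [sq_abs]
    ring
  have h3 : -(|t| * |c - s|) ≤ t * (c - s) := by
    rw [← abs_mul]
    exact neg_abs_le _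
  have h4 : 0 ≤ |t| := abs_nonneg t
  rw [h2]
  nlinarith

theorem eval_der (R : Finset ℝ) (x : ℝ) (hx : ∀ s ∈ R, x ≠ s) :
    (derivative (PR R)).eval x = (PR R).eval x * ∑ s ∈ R, (x - s)⁻¹ := by
  classical
  rw [PR, derivative_prod_finset, eval_finsetSum, Finset.mul_sum]
  refine Finset.sum_congr rfl fun i hi => ?_
  rw [eval_mul, eval_prod, eval_prod, derivative_sub, derivative_X, derivative_C, sub_zero,
    eval_one, mul_one, ← Finset.prod_erase_mul _ _ hi]
  have h : x - i ≠ 0 := sub_ne_zero.2 (hx i hi)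
  simp only [eval_sub, eval_X, eval_C]
  rw [mul_assoc, mul_inv_cancel₀ h, mul_one]

/-- a critical point with a negative value is the strict minimum in its gap -/
theorem min0 (R : Finset ℝ) (hR : R.Nonempty) (c t : ℝ) (h : ∀ s ∈ R, |t| < |c - s|) (ht : t ≠ 0)
    (h0 : (derivative (PR R)).eval c = 0) (hneg : (PR R).eval c < 0) :
    (PR R).eval c < (PR R).eval (c + t) := by
  have hne : ∀ s ∈ R, c - s ≠ 0 := fun s hs h1 => by
    have := h s hs
    rw [h1, abs_zero] at this
    exact absurd this (not_lt.2 (abs_nonneg t))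
  rw [eval_der R c fun s hs => sub_ne_zero.1 (hne s hs)] at h0
  have hsum : ∑ s ∈ R, (c - s)⁻¹ = 0 := (mul_eq_zero.1 h0).resolve_left hneg.ne
  have hprod : (PR R).eval (c + t) = (PR R).eval c * ∏ s ∈ R, (t * (c - s)⁻¹ + 1) := by
    rw [eval_PR, eval_PR, ← Finset.prod_mul_distrib]
    refine Finset.prod_congr rfl fun s hs => ?_
    have := hne s hs
    field_simp
    ring
  have hlt : ∏ s ∈ R, (t * (c - s)⁻¹ + 1) < ∏ s ∈ R, Real.exp (t * (c - s)⁻¹) := by
    refine Finset.prod_lt_prod_of_nonempty (fun s hs => ?_) (fun s hs => ?_) hR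
    · have h1 : |t * (c - s)⁻¹| < 1 := by
        rw [abs_mul, abs_inv, ← div_eq_mul_inv, div_lt_one (abs_pos.2 (hne s hs))]
        exact h s hs
      have := (abs_lt.1 h1).1
      linarith
    · exact Real.add_one_lt_exp (mul_ne_zero ht (inv_ne_zero (hne s hs)))
  rw [← Real.exp_sum, ← Finset.mul_sum, hsum, mul_zero, Real.exp_zero] at hlt
  rw [hprod]
  nlinarith

theorem ivt (g : ℝ → ℝ) (hg : Continuous g) (a b : ℝ) (hab : a < b) (h : g a * g b < 0) :
    ∃ x, a < x ∧ x < b ∧ g x = 0 := by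
  rcases mul_neg_iff.1 h with ⟨h1, h2⟩ | ⟨h1, h2⟩
  · obtain ⟨x, hx, h3⟩ := intermediate_value_Ioo' hab.le hg.continuousOn
      (show (0 : ℝ) ∈ Set.Ioo (g b) (g a) from ⟨h2, h1⟩)
    exact ⟨x, hx.1, hx.2, h3⟩
  · obtain ⟨x, hx, h3⟩ := intermediate_value_Ioo hab.le hg.continuousOn
      (show (0 : ℝ) ∈ Set.Ioo (g a) (g b) from ⟨h1, h2⟩)
    exact ⟨x, hx.1, hx.2, h3⟩

theorem t_LOC : S_LOC := by
  classical
  intro A κ₀ R hR hF
  obtain ⟨Z, hZ1, hZ2, hZ3⟩ := fac R hR
  have hRne : R.Nonempty := Finset.card_pos.1 hR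
  have hpos : (0 : ℝ) < R.card := by exact_mod_cast hR
  have hA : A ≠ 0 := by
    intro h
    have h1 := (monic_PR R).ne_zero
    rw [← hF, h] at h1
    exact h1 (by simp [FP])
  have hdegF : ∀ κ, (FP A κ).natDegree = R.card := by
    intro κ
    rw [natDegree_FP A hA κ, ← natDegree_FP A hA κ₀, hF, natDegree_PR]
  obtain ⟨δ₀, hδ₀, hsep⟩ := exists_sep (Z ∪ R)
  set δ : ℝ := δ₀ / 2 with hδdef
  have hδ : 0 < δ := by rw [hδdef]; linarith
  have hsepZ : ∀ c ∈ Z, ∀ c' ∈ Z, c ≠ c' → 2 * δ < |c - c'| := by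
    intro c hc c' hc' hne
    have := hsep c (Finset.mem_union_left _ hc) c' (Finset.mem_union_left _ hc') hne
    rw [hδdef]; linarith
  have hsepR : ∀ c ∈ Z, ∀ t : ℝ, |t| ≤ δ → ∀ s ∈ R, |t| < |c - s| := by
    intro c hc t ht s hs
    have hne : c ≠ s := fun h => hZ3 c hc (h ▸ hs)
    have := hsep c (Finset.mem_union_left _ hc) s (Finset.mem_union_right _ hs) hne
    rw [hδdef] at ht; linarith
  have hdZ : ∀ x, (derivative (FP A κ₀)).eval x = (R.card : ℝ) * (PR Z).eval x := by
    intro x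
    rw [hF, hZ2, eval_mul, eval_C]
  have hcrit : ∀ c ∈ Z, (derivative (PR R)).eval c = 0 := by
    intro c hc
    rw [hZ2, eval_mul, (eval_PR_eq_zero Z c).2 hc, mul_zero]
  -- continuity
  have hcontF : Continuous fun p : ℝ × ℝ => (FP A p.1).eval p.2 := by
    simp only [eval_FP]
    have := A.continuous
    fun_prop
  have hcontD : Continuous fun p : ℝ × ℝ => (derivative (FP A p.1)).eval p.2 := by
    simp only [eval_dFP]
    have h1 := A.continuous
    have h2 := (derivative A).continuous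
    fun_prop
  -- (1) sign change of the derivative
  have e1 : ∀ᶠ κ in 𝓝 κ₀, ∀ c ∈ Z,
      (derivative (FP A κ)).eval (c - δ) * (derivative (FP A κ)).eval (c + δ) < 0 := by
    rw [Finset.eventually_all]
    intro c hc
    have hc1 : Continuous fun κ : ℝ =>
        (derivative (FP A κ)).eval (c - δ) * (derivative (FP A κ)).eval (c + δ) :=
      (hcontD.comp (by fun_prop : Continuous fun κ : ℝ => (κ, c - δ))).mul
        (hcontD.comp (by fun_prop : Continuous fun κ : ℝ => (κ, c + δ)))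
    refine hc1.continuousAt.eventually_lt continuousAt_const ?_
    rw [hdZ, hdZ]
    have h4 := eval_mul_neg Z (2 * δ) hsepZ c hc δ hδ (by linarith)
    have h5 : (R.card : ℝ) * (PR Z).eval (c - δ) * ((R.card : ℝ) * (PR Z).eval (c + δ))
        = (R.card : ℝ) ^ 2 * ((PR Z).eval (c - δ) * (PR Z).eval (c + δ)) := by ring
    rw [h5]
    exact mul_neg_of_pos_of_neg (by positivity) h4
  -- (2) the sign on the windows
  have e2 : ∀ᶠ κ in 𝓝 κ₀, ∀ c ∈ Z, ∀ y ∈ Set.Icc (c - δ) (c + δ),
      0 < (PR R).eval c * (FP A κ).eval y := by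
    rw [Finset.eventually_all]
    intro c hc
    refine IsCompact.eventually_forall_of_forall_eventually isCompact_Icc fun y hy => ?_
    have hc1 : Continuous fun p : ℝ × ℝ => (PR R).eval c * (FP A p.1).eval p.2 :=
      continuous_const.mul hcontF
    refine continuousAt_const.eventually_lt hc1.continuousAt ?_
    simp only [hF]
    have h1 := sign0 R c (y - c) (hsepR c hc (y - c) (abs_le.2 ⟨by linarith [hy.1], by
      linarith [hy.2]⟩))
    rwa [add_sub_cancel] at h1
  -- (3) the ends of the windows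
  have e3 : ∀ᶠ κ in 𝓝 κ₀, ∀ c ∈ Z, (PR R).eval c < 0 →
      (FP A κ).eval c < (FP A κ).eval (c - δ) ∧ (FP A κ).eval c < (FP A κ).eval (c + δ) := by
    rw [Finset.eventually_all]
    intro c hc
    by_cases hn : (PR R).eval c < 0
    · have hc1 : ∀ z : ℝ, Continuous fun κ : ℝ => (FP A κ).eval z := fun z =>
        hcontF.comp (by fun_prop : Continuous fun κ : ℝ => (κ, z))
      have h1 : (PR R).eval c < (PR R).eval (c - δ) := by
        have := min0 R hRne c (-δ) (hsepR c hc (-δ) (by rw [abs_neg, abs_of_pos hδ]))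
          (by linarith [hδ] : -δ ≠ 0) (hcrit c hc) hn
        rwa [← sub_eq_add_neg] at this
      have h2 : (PR R).eval c < (PR R).eval (c + δ) :=
        min0 R hRne c δ (hsepR c hc δ (by rw [abs_of_pos hδ])) hδ.ne' (hcrit c hc) hn
      have h3 := (hc1 c).continuousAt.eventually_lt (x₀ := κ₀) (hc1 (c - δ)).continuousAt
        (by rw [hF]; exact h1)
      have h4 := (hc1 c).continuousAt.eventually_lt (x₀ := κ₀) (hc1 (c + δ)).continuousAt
        (by rw [hF]; exact h2)
      filter_upwards [h3, h4] with κ h5 h6 _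
      exact ⟨h5, h6⟩
    · exact Filter.Eventually.of_forall fun κ h => absurd h hn
  obtain ⟨η, hη, hall⟩ := Metric.eventually_nhds_iff.1 (e1.and (e2.and e3))
  refine ⟨Z.filter fun c => (PR R).eval c < 0, δ, η, hδ, hη, fun c hc c' hc' hne =>
    hsepZ c (Finset.mem_filter.1 hc).1 c' (Finset.mem_filter.1 hc').1 hne, fun κ hκ => ?_⟩
  obtain ⟨h1, h2, h3⟩ := hall (show dist κ κ₀ < η by rwa [Real.dist_eq])
  have hcD : Continuous fun x => (derivative (FP A κ)).eval x := (derivative (FP A κ)).continuous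
  have hex : ∀ c ∈ Z, ∃ x, c - δ < x ∧ x < c + δ ∧ (derivative (FP A κ)).eval x = 0 :=
    fun c hc => ivt _ hcD (c - δ) (c + δ) (by linarith) (h1 c hc)
  choose! x hx1 hx2 hx3 using hex
  have hdne : derivative (FP A κ) ≠ 0 := by
    intro h
    have := derivative_eq_zero.1 h
    rw [hdegF] at this
    omega
  have hinj : Set.InjOn x Z := by
    intro c hc c' hc' he
    by_contra hne
    have h4 := hsepZ c hc c' hc' hne
    have h5 := hx1 c hc
    have h6 := hx2 c hc
    have h7 := hx1 c' hc'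
    have h8 := hx2 c' hc'
    rw [he] at h5 h6
    have : |c - c'| < 2 * δ := abs_lt.2 ⟨by linarith, by linarith⟩
    linarith
  have himg : Z.image x = (derivative (FP A κ)).roots.toFinset := by
    refine Finset.eq_of_subset_of_card_le (fun y hy => ?_) ?_
    · obtain ⟨c, hc, rfl⟩ := Finset.mem_image.1 hy
      rw [Multiset.mem_toFinset, mem_roots hdne]
      exact hx3 c hc
    · rw [Finset.card_image_of_injOn hinj]
      have h4 := Multiset.toFinset_card_le (derivative (FP A κ)).roots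
      have h5 := card_roots' (derivative (FP A κ))
      have h6 := natDegree_derivative_le (FP A κ)
      rw [hdegF] at h6
      omega
  have hall0 : ∀ y, (derivative (FP A κ)).eval y = 0 → ∃ c ∈ Z, x c = y := by
    intro y hy
    have : y ∈ Z.image x := by
      rw [himg, Multiset.mem_toFinset, mem_roots hdne]
      exact hy
    obtain ⟨c, hc, h⟩ := Finset.mem_image.1 this
    exact ⟨c, hc, h⟩
  have huniq : ∀ c ∈ Z, ∀ y, |y - c| ≤ δ → (derivative (FP A κ)).eval y = 0 → y = x c := by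
    intro c hc y hy hy0
    obtain ⟨c', hc', h⟩ := hall0 y hy0
    by_cases hcc : c = c'
    · rw [hcc, h]
    · exfalso
      have h4 := hsepZ c hc c' hc' hcc
      have h5 := hx1 c' hc'
      have h6 := hx2 c' hc'
      rw [h] at h5 h6
      have h7 := abs_le.1 hy
      have : |c - c'| < 2 * δ := abs_lt.2 ⟨by linarith [h7.1], by linarith [h7.2]⟩
      linarith
  refine ⟨fun c hc => ?_, fun y hy hneg => ?_⟩
  · obtain ⟨hcZ, hcn⟩ := Finset.mem_filter.1 hc
    have hwin : ∀ y ∈ Set.Icc (c - δ) (c + δ), (FP A κ).eval y < 0 := by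
      intro y hy
      have := h2 c hcZ y hy
      by_contra hge
      have := mul_nonpos_of_nonpos_of_nonneg hcn.le (not_lt.1 hge)
      linarith
    have hcF : Continuous fun y => (FP A κ).eval y := (FP A κ).continuous
    obtain ⟨m, hm, hmin⟩ := (isCompact_Icc : IsCompact (Set.Icc (c - δ) (c + δ))).exists_isMinOn
      ⟨c, by constructor <;> linarith⟩ hcF.continuousOn
    have hmc : (FP A κ).eval m ≤ (FP A κ).eval c :=
      hmin (show c ∈ Set.Icc (c - δ) (c + δ) from ⟨by linarith, by linarith⟩)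
    obtain ⟨h4, h5⟩ := h3 c hcZ hcn
    have hm1 : c - δ < m := lt_of_le_of_ne hm.1 fun h => by rw [← h] at hmc; linarith
    have hm2 : m < c + δ := lt_of_le_of_ne hm.2 fun h => by rw [h] at hmc; linarith
    have hloc : IsLocalMin (fun y => (FP A κ).eval y) m :=
      hmin.isLocalMin (Icc_mem_nhds hm1 hm2)
    have hm0 : (derivative (FP A κ)).eval m = 0 :=
      hloc.hasDerivAt_eq_zero ((FP A κ).hasDerivAt m)
    have hmx : m = x c := huniq c hcZ m (abs_le.2 ⟨by linarith, by linarith⟩) hm0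
    refine ⟨x c, abs_lt.2 ⟨by linarith [hx1 c hcZ], by linarith [hx2 c hcZ]⟩, hx3 c hcZ,
      hwin _ ⟨(hx1 c hcZ).le, (hx2 c hcZ).le⟩, fun y hy => ?_, huniq c hcZ⟩
    rw [← hmx]
    have h6 := abs_le.1 hy
    exact hmin (show y ∈ Set.Icc (c - δ) (c + δ) from ⟨by linarith [h6.1], by linarith [h6.2]⟩)
  · obtain ⟨c, hc, h⟩ := hall0 y hy
    have h4 := hx1 c hc
    have h5 := hx2 c hc
    rw [h] at h4 h5
    refine ⟨c, Finset.mem_filter.2 ⟨hc, ?_⟩, abs_lt.2 ⟨by linarith, by linarith⟩⟩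
    have h6 := h2 c hc y ⟨h4.le, h5.le⟩
    by_contra hge
    have := mul_nonpos_of_nonneg_of_nonpos (not_lt.1 hge) hneg.le
    linarith

end Run7.h191.CS
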