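import Pool.Agent.Run7.h241.CS.Iface

/-!
# Piece CRT of the project CS (helper241): critical points of a polynomial with simple real roots
-/

set_option autoImplicit false

namespace Run7.h191.CS

open Polynomial Run7.h241.CS

theorem exists_pos_lt (S : Finset ℝ) (h : ∀ x ∈ S, 0 < x) :
    ∃ δ : ℝ, 0 < δ ∧ ∀ x ∈ S, δ < x := by
  classical
  induction S using Finset.induction_on with
  | empty => exact ⟨1, one_pos, fun x hx => absurd hx (Finset.notMem_empty x)⟩
  | insert a S ha ih =>
    obtain ⟨δ, h1, h2⟩ := ih fun x hx => h x (Finset.mem_insert_of_mem hx)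
    have h3 := h a (Finset.mem_insert_self a S)
    refine ⟨min δ (a / 2), lt_min h1 (by linarith), fun x hx => ?_⟩
    rcases Finset.mem_insert.1 hx with rfl | hx
    · exact lt_of_le_of_lt (min_le_right _ _) (by linarith)
    · exact lt_of_le_of_lt (min_le_left _ _) (h2 x hx)

/-- a positive number smaller than all distances in a finite set -/
theorem exists_sep (Z : Finset ℝ) :
    ∃ δ : ℝ, 0 < δ ∧ ∀ c ∈ Z, ∀ c' ∈ Z, c ≠ c' → δ < |c - c'| := by
  classical
  obtain ⟨δ, h1, h2⟩ := exists_pos_lt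
    (((Z ×ˢ Z).filter fun p : ℝ × ℝ => p.1 ≠ p.2).image fun p => |p.1 - p.2|) (by
      intro x hx
      obtain ⟨p, hp, rfl⟩ := Finset.mem_image.1 hx
      exact abs_pos.2 (sub_ne_zero.2 (Finset.mem_filter.1 hp).2))
  refine ⟨δ, h1, fun c hc c' hc' hne => h2 _ (Finset.mem_image.2 ⟨(c, c'), ?_, rfl⟩)⟩
  exact Finset.mem_filter.2 ⟨Finset.mk_mem_product hc hc', hne⟩

theorem natDegree_PR (R : Finset ℝ) : (PR R).natDegree = R.card := by
  rw [PR]
  exact natDegree_finsetProd_X_sub_C_eq_card R fun s => s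

theorem monic_PR (R : Finset ℝ) : (PR R).Monic := monic_prod_X_sub_C _ _

theorem roots_PR (R : Finset ℝ) : (PR R).roots = R.val := roots_prod_X_sub_C R

theorem eval_PR (R : Finset ℝ) (x : ℝ) : (PR R).eval x = ∏ s ∈ R, (x - s) := by
  rw [PR, eval_prod]
  exact Finset.prod_congr rfl fun i _ => by simp

theorem eval_PR_eq_zero (R : Finset ℝ) (x : ℝ) : (PR R).eval x = 0 ↔ x ∈ R := by
  rw [eval_PR, Finset.prod_eq_zero_iff]
  constructor
  · rintro ⟨s, hs, h⟩
    rwa [sub_eq_zero.1 h]
  · intro h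
    exact ⟨x, h, sub_self x⟩

/-- the derivative in factored form -/
theorem fac (R : Finset ℝ) (hR : 1 ≤ R.card) : ∃ Z : Finset ℝ, Z.card + 1 = R.card ∧
    derivative (PR R) = C (R.card : ℝ) * PR Z ∧ ∀ c ∈ Z, c ∉ R := by
  classical
  have hcoef : (derivative (PR R)).coeff (R.card - 1) = (R.card : ℝ) := by
    rw [coeff_derivative]
    have h1 : R.card - 1 + 1 = R.card := by omega
    rw [h1]
    have h2 : (PR R).coeff R.card = 1 := by
      have := (monic_PR R).coeff_natDegree
      rwa [natDegree_PR] at this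
    rw [h2, one_mul]
    have : ((R.card - 1 : ℕ) : ℝ) + 1 = ((R.card - 1 + 1 : ℕ) : ℝ) := by push_cast; ring
    rw [this, h1]
  have hpos : (0 : ℝ) < R.card := by exact_mod_cast hR
  have hne : derivative (PR R) ≠ 0 := by
    intro h
    rw [h, coeff_zero] at hcoef
    linarith
  have hdeg : (derivative (PR R)).natDegree = R.card - 1 := by
    refine le_antisymm ?_ (le_natDegree_of_ne_zero (by rw [hcoef]; exact hpos.ne'))
    have := natDegree_derivative_le (PR R)
    rwa [natDegree_PR] at this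
  have hlead : (derivative (PR R)).leadingCoeff = (R.card : ℝ) := by
    rw [leadingCoeff, hdeg, hcoef]
  set D : Multiset ℝ := (derivative (PR R)).roots with hD
  have hR1 : (PR R).roots.toFinset = R := by rw [roots_PR, Finset.val_toFinset]
  have h1 : R.card ≤ (D.toFinset \ R).card + 1 := by
    have := card_roots_toFinset_le_card_roots_derivative_sdiff_roots_succ (PR R)
    rwa [hR1] at this
  have h2 : (D.toFinset \ R).card ≤ D.toFinset.card := Finset.card_le_card Finset.sdiff_subset
  have h3 : D.toFinset.card ≤ Multiset.card D := Multiset.toFinset_card_le D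
  have h4 : Multiset.card D ≤ R.card - 1 := by
    have := card_roots' (derivative (PR R))
    rwa [hdeg] at this
  have h5 : Multiset.card D = R.card - 1 := by omega
  have h6 : D.toFinset.card = Multiset.card D := by omega
  have h7 : D.Nodup := by
    rwa [Multiset.toFinset_card_eq_card_iff_nodup] at h6
  have h8 : D.toFinset \ R = D.toFinset :=
    Finset.eq_of_subset_of_card_le Finset.sdiff_subset (by omega)
  refine ⟨D.toFinset, by omega, ?_, fun c hc => ?_⟩
  · have h9 := C_leadingCoeff_mul_prod_multiset_X_sub_C (p := derivative (PR R))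
      (by rw [← hD, h5, hdeg])
    rw [hlead, ← hD] at h9
    rw [← h9, PR, Finset.prod, Multiset.toFinset_val, Multiset.dedup_eq_self.2 h7]
  · rw [← h8] at hc
    exact (Finset.mem_sdiff.1 hc).2

theorem eval_mul_neg (Z : Finset ℝ) (δ : ℝ) (hs : ∀ c ∈ Z, ∀ c' ∈ Z, c ≠ c' → δ < |c - c'|)
    (c : ℝ) (hc : c ∈ Z) (t : ℝ) (ht : 0 < t) (htδ : t ≤ δ) :
    (PR Z).eval (c - t) * (PR Z).eval (c + t) < 0 := by
  classical
  rw [eval_PR, eval_PR, ← Finset.prod_mul_distrib, ← Finset.mul_prod_erase Z _ hc]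
  have h1 : 0 < ∏ c' ∈ Z.erase c, (c - t - c') * (c + t - c') := by
    refine Finset.prod_pos fun c' hc' => ?_
    have h2 := hs c hc c' (Finset.mem_of_mem_erase hc') (Finset.ne_of_mem_erase hc').symm
    have h3 : (c - t - c') * (c + t - c') = |c - c'| ^ 2 - t ^ 2 := by
      rw [sq_abs]
      ring
    rw [h3]
    nlinarith
  have h2 : (c - t - c) * (c + t - c) = -(t ^ 2) := by ring
  rw [h2]
  have h3 : 0 < t ^ 2 := by positivity
  nlinarith

theorem t_CRT : S_CRT := by
  classical
  intro R hR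
  obtain ⟨Z, h1, h2, h3⟩ := fac R hR
  have hpos : (0 : ℝ) < R.card := by exact_mod_cast hR
  have hev : ∀ x, (derivative (PR R)).eval x = (R.card : ℝ) * (PR Z).eval x := by
    intro x
    rw [h2, eval_mul, eval_C]
  obtain ⟨δ, hδ, hs⟩ := exists_sep Z
  refine ⟨Z, h1, fun x => ?_, fun c hc h => h3 c hc ((eval_PR_eq_zero R c).1 h), δ,
    hδ, fun c hc t ht htδ => ?_⟩
  · rw [h2, eval_mul, eval_C, mul_eq_zero, eval_PR_eq_zero]
    exact ⟨fun h => h.resolve_left hpos.ne', Or.inr⟩
  · rw [hev, hev]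
    have h4 := eval_mul_neg Z δ hs c hc t ht htδ
    have h5 : (R.card : ℝ) * (PR Z).eval (c - t) * ((R.card : ℝ) * (PR Z).eval (c + t))
        = (R.card : ℝ) ^ 2 * ((PR Z).eval (c - t) * (PR Z).eval (c + t)) := by ring
    rw [h5]
    exact mul_neg_of_pos_of_neg (by positivity) h4

end Run7.h191.CS
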